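import Pool.Agent.Helper68.FQ.Fin

/-!
# Project FQ (MP_0f6f3f_an), layer END: reindexing

`SD.reindex`, `Cmb.reindex`: simple systems with another index set. `fq_end_of`: the end with a bijection of the nodes. `fq_end_hC`: the same when the Cartan integers are known.
-/

set_option autoImplicit false
set_option linter.unusedSectionVars false

namespace Pool.Agent.Helper68.FQ

open Module Pool.Agent.Helper96.SA Pool.Agent.Helper96.TO Pool.Agent.Helper69.SLN Pool.Agent.Helper77.LA Pool.Agent.Helper25.AE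
  Pool.Agent.Helper77.AE Pool.Agent.Helper95.AE

variable {L L' : Type} [LieRing L] [LieAlgebra ℝ L] [LieRing L'] [LieAlgebra ℝ L'] {N N' : ℕ} {θ : L ≃ₗ⁅ℝ⁆ L} {θ' : L' ≃ₗ⁅ℝ⁆ L'}
  {b : Module.Basis (Fin N) ℝ L} {b' : Module.Basis (Fin N') ℝ L'} {A : Submodule ℝ L} {A' : Submodule ℝ L'}
  {τ : Module.Dual ℝ A ≃ₗ[ℝ] A} {τ' : Module.Dual ℝ A' ≃ₗ[ℝ] A'} {ι κ : Type} [Fintype ι] [Fintype κ] {al : ι → Module.Dual ℝ A}
  {al' : κ → Module.Dual ℝ A'}

theorem Smp.reindex (s : Smp A al) (σ : κ ≃ ι) : Smp A (fun k => al (σ k)) where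
  root k := s.root _
  dif i j hij := s.dif _ _ fun h => hij (σ.injective h)
  ht := by
    obtain ⟨H, hH⟩ := s.ht
    exact ⟨H, fun k => hH _⟩
  gen := by
    rw [← s.gen]
    congr 1
    ext x
    constructor
    · rintro ⟨i, hi⟩
      exact ⟨σ i, hi⟩
    · rintro ⟨i, hi⟩
      exact ⟨σ.symm i, by rwa [σ.apply_symm_apply]⟩

/-- Reindexing of a simple system. -/
theorem SD.reindex (s : SD θ b A τ al) (σ : κ ≃ ι) : SD θ b A τ (fun k => al (σ k)) where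
  h := s.h
  hA := s.hA
  hτ := s.hτ
  hS := Smp.reindex s.hS σ
  li := s.li.comp σ σ.injective
  ob i j hij := s.ob _ _ fun h => hij (σ.injective h)

theorem Cmb.reindex (hp : Cmb A al) (σ : κ ≃ ι) : Cmb A (fun k => al (σ k)) := by
  intro φ hφ
  obtain ⟨c, hc⟩ := hp φ hφ
  have h1 : ∑ k, ((c (σ k) : ℕ) : ℝ) • al (σ k) = ∑ i, (c i : ℝ) • al i := Equiv.sum_comp σ fun i => (c i : ℝ) • al i
  exact ⟨fun k => c (σ k), by rwa [h1]⟩

/-- The end, with a bijection `σ` of the nodes. -/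
theorem fq_end_of [Nontrivial ι] [LieAlgebra.IsSimple ℝ L] [LieAlgebra.IsSimple ℝ L'] (s : SD θ b A τ al) (s' : SD θ' b' A' τ' al')
    (hp : Cmb A al) (hp' : Cmb A' al') (σ : ι ≃ κ) (hD : ∀ u, DimOff A A' al (fun i => al' (σ i)) u)
    (hρ : Fintype.card ι = 2 → ∀ (c : A) (c' : A'), (∀ i, 0 ≤ al i c) → (∀ i, al i c = al' (σ i) c') → tpos A c = tpos A' c') :
    ∃ e : L ≃ₗ⁅ℝ⁆ L', ∀ x, e (θ x) = θ' (e x) :=
  fq_end s (SD.reindex s' σ) hp (Cmb.reindex hp' σ) hD hρ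

/-- The end, with a bijection `σ` of the nodes, when the Cartan integers are known. -/
theorem fq_end_hC [Nontrivial ι] [LieAlgebra.IsSimple ℝ L] [LieAlgebra.IsSimple ℝ L'] (s : SD θ b A τ al) (s' : SD θ' b' A' τ' al')
    (σ : ι ≃ κ) (hD : ∀ u, DimOff A A' al (fun i => al' (σ i)) u)
    (hC : ∀ i j, al j (τ (al i)) * al' (σ i) (τ' (al' (σ i))) = al' (σ j) (τ' (al' (σ i))) * al i (τ (al i))) :
    ∃ e : L ≃ₗ⁅ℝ⁆ L', ∀ x, e (θ x) = θ' (e x) := by
  refine ae_final s (SD.reindex s' σ) hC (fun i => ?_) fun i => ?_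
  · obtain ⟨u, hu⟩ := exists_off i
    exact (hD u).hd hu
  · obtain ⟨u, hu⟩ := exists_off i
    exact (hD u).hd2 hu

end Pool.Agent.Helper68.FQ
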