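import Pool.Agent.Helper85.AE.Smp
import Pool.Agent.Helper77.TZ2.Rel
import Pool.Agent.Helper77.LA.Base

/-!
# Project FQ (MP_0f6f3f_an), layer END: eigenbases

`Wt A e wt`: `e` is a basis of `L` of weight vectors with the weights `wt`. `exists_eb`: there is one. `Eb.mem`, `Eb.finrank_rsp`: the root spaces and their dimensions. `Cmb A al`: the restricted roots are `±` combinations of the `al i` with coefficients in `ℕ`.
`Eb.exists_cf`: the weights as integral combinations. `tpos`: the functional `2 rho` on the closed chamber, `Eb.tpos_eq`.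
-/

set_option autoImplicit false

namespace Pool.Agent.Helper68.FQ

open Module Pool.Agent.Helper96.SA Pool.Agent.Helper96.TO Pool.Agent.Helper69.SLN Pool.Agent.Helper77.LA

variable {L : Type} [LieRing L] [LieAlgebra ℝ L] {N : ℕ} {θ : L ≃ₗ⁅ℝ⁆ L} {b : Module.Basis (Fin N) ℝ L} {A : Submodule ℝ L}
  {ι κ : Type}

/-- A basis of weight vectors. -/
def Eb (A : Submodule ℝ L) (e : Module.Basis κ ℝ L) (wt : κ → Module.Dual ℝ A) : Prop := ∀ k, Wv A (wt k) (e k)

theorem exists_eb (h : CartanBasis θ b) (hA : MaxFlat θ A) : ∃ (e : Module.Basis (Fin N) ℝ L) (wt : Fin N → Module.Dual ℝ A), Eb A e wt := by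
  have hF : Module.Finite ℝ L := Module.Finite.of_basis b
  have hs := span_weights h hA
  let B := Module.Basis.ofSpan (K := ℝ) (V := L) (s := {x : L | ∃ φ : Module.Dual ℝ A, Wv A φ x}) (le_of_eq hs.symm)
  have hB : ∀ i, ∃ φ : Module.Dual ℝ A, Wv A φ (B i) := by
    intro i
    have h1 : B i ∈ {x : L | ∃ φ : Module.Dual ℝ A, Wv A φ x} := Module.Basis.ofSpan_subset (le_of_eq hs.symm) ⟨i, rfl⟩
    exact h1
  let ε := B.indexEquiv b
  choose φ hφ using hB
  refine ⟨B.reindex ε, fun k => φ (ε.symm k), fun k => ?_⟩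
  rw [Module.Basis.reindex_apply]
  exact hφ _

section

variable [Fintype κ] {e : Module.Basis κ ℝ L} {wt : κ → Module.Dual ℝ A}

theorem Eb.lie_coord (hE : Eb A e wt) (a : A) (z : L) (l : κ) : e.repr ⁅(a : L), z⁆ l = wt l a * e.repr z l := by
  classical
  conv_lhs => rw [← e.sum_repr z]
  rw [lie_sum, map_sum, Finsupp.finsetSum_apply, Finset.sum_eq_single l]
  · rw [lie_smul, hE l a, map_smul, map_smul, e.repr_self, Finsupp.smul_apply, Finsupp.smul_apply, Finsupp.single_eq_same, smul_eq_mul, smul_eq_mul]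
    ring
  · intro k _ hk
    rw [lie_smul, hE k a, map_smul, map_smul, e.repr_self, Finsupp.smul_apply, Finsupp.smul_apply, Finsupp.single_eq_of_ne (Ne.symm hk), smul_zero, smul_zero]
  · intro h
    exact absurd (Finset.mem_univ l) h

/-- The coordinates of a weight vector. -/
theorem Eb.mem (hE : Eb A e wt) {φ : Module.Dual ℝ A} {z : L} (hz : Wv A φ z) {l : κ} (h : e.repr z l ≠ 0) : wt l = φ := by
  refine LinearMap.ext fun a => ?_
  have h1 := hE.lie_coord a z l
  rw [hz a, map_smul, Finsupp.smul_apply, smul_eq_mul] at h1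
  exact (mul_right_cancel₀ h h1).symm

theorem Eb.rsp_eq (hE : Eb A e wt) (φ : Module.Dual ℝ A) : rsp A φ = Submodule.span ℝ (Set.range fun k : {k // wt k = φ} => e k) := by
  classical
  refine le_antisymm ?_ (Submodule.span_le.2 ?_)
  · intro z hz
    rw [← e.sum_repr z]
    refine Submodule.sum_mem _ fun k _ => ?_
    by_cases h : e.repr z k = 0
    · rw [h, zero_smul]
      exact Submodule.zero_mem _
    · exact Submodule.smul_mem _ _ (Submodule.subset_span ⟨⟨k, hE.mem hz h⟩, rfl⟩)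
  · rintro _ ⟨⟨k, hk⟩, rfl⟩
    have h1 := hE k
    rw [hk] at h1
    exact h1

open Classical in
/-- The dimension of a root space. -/
theorem Eb.finrank_rsp (hE : Eb A e wt) (φ : Module.Dual ℝ A) : finrank ℝ (rsp A φ) = (Finset.univ.filter fun k => wt k = φ).card := by
  rw [hE.rsp_eq, finrank_span_eq_card]
  · exact Fintype.card_subtype _
  · exact e.linearIndependent.comp _ Subtype.val_injective

omit [Fintype κ] in
theorem Eb.root (hE : Eb A e wt) {k : κ} (h : wt k ≠ 0) : wt k ∈ rootsL A := ⟨h, e k, e.ne_zero k, hE k⟩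

theorem Eb.exists_root (hE : Eb A e wt) {φ : Module.Dual ℝ A} (h : φ ∈ rootsL A) : ∃ k, wt k = φ := by
  obtain ⟨-, x, hx0, hx⟩ := h
  by_contra hn
  push Not at hn
  apply hx0
  have h1 : e.repr x = 0 := by
    ext l
    by_contra h2
    exact hn l (hE.mem hx h2)
  exact e.repr.map_eq_zero_iff.1 h1

end

/-- The restricted roots are `±` combinations of the simple roots with coefficients in `ℕ`. -/
def Cmb [Fintype ι] (A : Submodule ℝ L) (al : ι → Module.Dual ℝ A) : Prop :=
  ∀ φ ∈ rootsL A, ∃ c : ι → ℕ, φ = ∑ i, (c i : ℝ) • al i ∨ φ = -∑ i, (c i : ℝ) • al i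

/-- Coefficients of the weights. -/
structure Cf [Fintype ι] (al : ι → Module.Dual ℝ A) (wt : κ → Module.Dual ℝ A) (m : κ → ι → ℤ) : Prop where
  eq : ∀ k, wt k = ∑ i, (m k i : ℝ) • al i
  sgn : ∀ k, (∀ i, 0 ≤ m k i) ∨ ∀ i, m k i ≤ 0

theorem Eb.exists_cf [Fintype ι] {e : Module.Basis κ ℝ L} {wt : κ → Module.Dual ℝ A} (hE : Eb A e wt) {al : ι → Module.Dual ℝ A}
    (hp : Cmb A al) : ∃ m : κ → ι → ℤ, Cf al wt m := by
  have h1 : ∀ k, ∃ m : ι → ℤ, wt k = ∑ i, (m i : ℝ) • al i ∧ ((∀ i, 0 ≤ m i) ∨ ∀ i, m i ≤ 0) := by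
    intro k
    by_cases h0 : wt k = 0
    · refine ⟨fun _ => 0, ?_, Or.inl fun i => le_rfl⟩
      rw [h0]
      simp
    · obtain ⟨c, hc | hc⟩ := hp _ ⟨h0, e k, e.ne_zero k, hE k⟩
      · refine ⟨fun i => (c i : ℤ), ?_, Or.inl fun i => by positivity⟩
        rw [hc]
        simp
      · refine ⟨fun i => -(c i : ℤ), ?_, Or.inr fun i => by simp⟩
        rw [hc, ← Finset.sum_neg_distrib]
        refine Finset.sum_congr rfl fun i _ => ?_
        push_cast
        exact (neg_smul _ _).symm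
  choose m hm using h1
  exact ⟨m, fun k => (hm k).1, fun k => (hm k).2⟩

theorem Cf.inj [Fintype ι] {al : ι → Module.Dual ℝ A} (hl : LinearIndependent ℝ al) {m n : ι → ℤ}
    (h : ∑ i, (m i : ℝ) • al i = ∑ i, (n i : ℝ) • al i) : m = n := by
  have h1 := Fintype.linearIndependent_iff.1 hl (fun i => (m i : ℝ) - n i) (by
    simp only [sub_smul, Finset.sum_sub_distrib]
    rw [h, sub_self])
  funext i
  have h2 := h1 i
  have h3 : (m i : ℝ) = n i := sub_eq_zero.1 h2
  exact_mod_cast h3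

/-- The sum of the positive values of the roots, with multiplicities: `2 rho` on the closed chamber. -/
noncomputable def tpos (A : Submodule ℝ L) (c : A) : ℝ := ∑ᶠ φ : Module.Dual ℝ A, (finrank ℝ (rsp A φ) : ℝ) * max (φ c) 0

theorem Eb.tpos_eq [Fintype κ] {e : Module.Basis κ ℝ L} {wt : κ → Module.Dual ℝ A} (hE : Eb A e wt) (c : A) :
    tpos A c = ∑ k, max (wt k c) 0 := by
  classical
  have h1 : Function.support (fun φ : Module.Dual ℝ A => (finrank ℝ (rsp A φ) : ℝ) * max (φ c) 0) ⊆ ((Finset.univ.image wt : Finset _) : Set (Module.Dual ℝ A)) := by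
    intro φ hφ
    rw [Function.mem_support] at hφ
    have h2 : finrank ℝ (rsp A φ) ≠ 0 := fun h0 => hφ (by rw [h0]; simp)
    rw [hE.finrank_rsp, Finset.card_ne_zero] at h2
    obtain ⟨k, hk⟩ := h2
    rw [Finset.mem_filter] at hk
    rw [Finset.coe_image]
    exact ⟨k, by simp, hk.2⟩
  rw [tpos, finsum_eq_sum_of_support_subset _ h1]
  rw [← Finset.sum_fiberwise_of_maps_to (s := Finset.univ) (t := Finset.univ.image wt) (g := wt) (f := fun k => max (wt k c) 0)
    (fun k _ => Finset.mem_image_of_mem _ (Finset.mem_univ k))]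
  refine Finset.sum_congr rfl fun φ _ => ?_
  rw [hE.finrank_rsp, Finset.sum_congr rfl (g := fun _ => max (φ c) 0), Finset.sum_const, nsmul_eq_mul]
  intro k hk
  rw [(Finset.mem_filter.1 hk).2]

end Pool.Agent.Helper68.FQ
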