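import Pool.Agent.Helper68.FQ.Rho
import Pool.Agent.Helper95.AE.BCa

/-!
# Project FQ (MP_0f6f3f_an), layer END: from the dimensions of the root spaces to an isomorphism

`string`: the Cartan integers are the lengths of the root strings through the simple roots. `hC_of_strings`, `hC_of_rho`: the Cartan integers from the dimensions of the root spaces, and in rank two from `2 rho` and the dimensions `dim g_(al i)`, `dim g_(2 al i)`.
`fq_ge`, `fq_two`, `fq_end`: **if, for every node `u`, the root spaces of the roots supported off `u` have the same dimensions (and in rank two the functionals `2 rho` agree), the Lie algebras are isomorphic.**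
-/

set_option autoImplicit false
set_option linter.unusedSectionVars false

namespace Pool.Agent.Helper68.FQ

open Module Pool.Agent.Helper96.SA Pool.Agent.Helper96.TO Pool.Agent.Helper69.SLN Pool.Agent.Helper77.LA Pool.Agent.Helper25.AE
  Pool.Agent.Helper77.TZ2 Pool.Agent.Helper77.ST Pool.Agent.Helper95.AE

variable {L L' : Type} [LieRing L] [LieAlgebra ℝ L] [LieRing L'] [LieAlgebra ℝ L'] {N N' : ℕ} {θ : L ≃ₗ⁅ℝ⁆ L} {θ' : L' ≃ₗ⁅ℝ⁆ L'}
  {b : Module.Basis (Fin N) ℝ L} {b' : Module.Basis (Fin N') ℝ L'} {A : Submodule ℝ L} {A' : Submodule ℝ L'}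
  {τ : Module.Dual ℝ A ≃ₗ[ℝ] A} {τ' : Module.Dual ℝ A' ≃ₗ[ℝ] A'} {ι : Type} [Fintype ι] {al : ι → Module.Dual ℝ A}
  {al' : ι → Module.Dual ℝ A'}

/-- Two integral combinations with different signs of the coefficients. -/
theorem Cmb.not_mixed (hp : Cmb A al) (hl : LinearIndependent ℝ al) {n : ι → ℤ} {i j : ι} (hi : 0 < n i) (hj : n j < 0) :
    ∑ k, (n k : ℝ) • al k ∉ rootsL A := by
  intro h
  obtain ⟨c, hc | hc⟩ := hp _ h
  · have h1 : n = fun k => (c k : ℤ) := Cf.inj hl (by rw [hc]; push_cast; rfl)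
    have h2 : n j = (c j : ℤ) := congrFun h1 j
    omega
  · have h1 : n = fun k => -(c k : ℤ) := Cf.inj hl (by
      rw [hc, ← Finset.sum_neg_distrib]
      refine Finset.sum_congr rfl fun k _ => ?_
      push_cast
      exact (neg_smul _ _).symm)
    have h2 : n i = -(c i : ℤ) := congrFun h1 i
    omega

/-- `al j + c • al i` as a combination. -/
theorem comb_two [DecidableEq ι] {i j : ι} (hij : i ≠ j) (c : ℤ) :
    al j + (c : ℝ) • al i = ∑ k, (((if k = j then 1 else if k = i then c else 0 : ℤ)) : ℝ) • al k := by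
  have h1 : ∀ k, (((if k = j then 1 else if k = i then c else 0 : ℤ)) : ℝ) • al k = (if k = j then al j else 0) + if k = i then (c : ℝ) • al i else 0 := by
    intro k
    by_cases h2 : k = j
    · subst h2
      rw [if_pos rfl, if_pos rfl, if_neg (Ne.symm hij), add_zero, Int.cast_one]
      exact one_smul _ _
    · rw [if_neg h2, if_neg h2, zero_add]
      by_cases h3 : k = i
      · subst h3
        rw [if_pos rfl, if_pos rfl]
      · rw [if_neg h3, if_neg h3, Int.cast_zero]
        exact zero_smul ℝ _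
  rw [Finset.sum_congr rfl fun k _ => h1 k, Finset.sum_add_distrib, Finset.sum_ite_eq' Finset.univ j, if_pos (Finset.mem_univ j),
    Finset.sum_ite_eq' Finset.univ i, if_pos (Finset.mem_univ i)]

/-- **Root strings.** -/
theorem string (s : SD θ b A τ al) (hp : Cmb A al) {i j : ι} (hij : i ≠ j) : ∃ p : ℕ,
    2 * al j (τ (al i)) = -(p : ℝ) * al i (τ (al i)) ∧ al j + (p : ℝ) • al i ∈ rootsL A ∧ ∀ k : ℕ, al j + (k : ℝ) • al i ∈ rootsL A → k ≤ p := by
  classical
  have hpos := s.pos i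
  have ho := s.ob i j hij
  obtain ⟨n, hn, hr⟩ := refl s.h s.hA s.hτ (s.hS.root j) (s.hS.root i)
  have hn0 : n ≤ 0 := by
    by_contra h1
    have h2 : (1 : ℝ) ≤ n := by
      have : 1 ≤ n := by omega
      exact_mod_cast this
    nlinarith
  obtain ⟨p, hpn⟩ : ∃ p : ℕ, n = -(p : ℤ) := ⟨n.natAbs, by omega⟩
  subst hpn
  refine ⟨p, ?_, ?_, ?_⟩
  · rw [hn]
    push_cast
    ring
  · have h1 : al j - ((-(p : ℤ) : ℤ) : ℝ) • al i = al j + (p : ℝ) • al i := by
      push_cast
      module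
    rwa [h1] at hr
  · intro k hk
    by_contra hlt
    obtain ⟨n', hn', hr'⟩ := refl s.h s.hA s.hτ hk (s.hS.root i)
    rw [LinearMap.add_apply, LinearMap.smul_apply, smul_eq_mul] at hn'
    have h1 : (n' : ℝ) = 2 * k - p := by
      have h2 : ((n' : ℝ) - (2 * k - p)) * al i (τ (al i)) = 0 := by
        push_cast at hn
        linarith
      have h3 := (mul_eq_zero.1 h2).resolve_right hpos.ne'
      linarith
    have h4 : al j + (k : ℝ) • al i - (n' : ℝ) • al i = al j + (((p : ℤ) - k : ℤ) : ℝ) • al i := by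
      rw [h1]
      push_cast
      module
    rw [h4, comb_two hij] at hr'
    refine hp.not_mixed s.li (i := j) (j := i) ?_ ?_ hr'
    · rw [if_pos rfl]
      norm_num
    · rw [if_neg hij, if_pos rfl]
      omega

/-- The Cartan integers from the root strings. -/
theorem hC_of_strings (s : SD θ b A τ al) (s' : SD θ' b' A' τ' al') (hp : Cmb A al) (hp' : Cmb A' al')
    (hs : ∀ i j, i ≠ j → ∀ k : ℕ, al j + (k : ℝ) • al i ∈ rootsL A ↔ al' j + (k : ℝ) • al' i ∈ rootsL A') (i j : ι) :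
    al j (τ (al i)) * al' i (τ' (al' i)) = al' j (τ' (al' i)) * al i (τ (al i)) := by
  by_cases hij : i = j
  · subst hij
    ring
  obtain ⟨p, h1, h2, h3⟩ := string s hp hij
  obtain ⟨p', h1', h2', h3'⟩ := string s' hp' hij
  have h4 : p = p' := le_antisymm (h3' p ((hs i j hij p).1 h2)) (h3 p' ((hs i j hij p').2 h2'))
  subst h4
  linear_combination (al' i (τ' (al' i)) / 2) * h1 - (al i (τ (al i)) / 2) * h1'

/-- A functional is a root if and only if its root space is not zero. -/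
theorem root_iff (_h : CartanBasis θ b) {φ : Module.Dual ℝ A} (h0 : φ ≠ 0) : φ ∈ rootsL A ↔ finrank ℝ (rsp A φ) ≠ 0 := by
  have hf : Module.Finite ℝ L := Module.Finite.of_basis b
  constructor
  · intro h1 h2
    have h3 := nontrivial_rsp h1
    have h4 := Module.finrank_pos (R := ℝ) (M := rsp A φ)
    omega
  · intro h1
    by_contra h2
    exact h1 (finrank_zero_of h0 h2)

theorem comb_ne (hl : LinearIndependent ℝ al) {n : ι → ℤ} (h : n ≠ 0) : ∑ k, (n k : ℝ) • al k ≠ 0 := by
  intro h1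
  apply h
  refine Cf.inj hl ?_
  rw [h1]
  simp

/-- The dimensions of the root spaces supported off a node. -/
def DimOff (A : Submodule ℝ L) (A' : Submodule ℝ L') (al : ι → Module.Dual ℝ A) (al' : ι → Module.Dual ℝ A') (u : ι) : Prop :=
  ∀ n : ι → ℤ, n ≠ 0 → n u = 0 → finrank ℝ (rsp A (∑ k, (n k : ℝ) • al k)) = finrank ℝ (rsp A' (∑ k, (n k : ℝ) • al' k))

theorem comb_single [DecidableEq ι] (i : ι) (c : ℤ) : (c : ℝ) • al i = ∑ k, ((Pi.single i c : ι → ℤ) k : ℝ) • al k := by
  rw [Finset.sum_eq_single i]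
  · rw [Pi.single_eq_same]
  · intro j _ hj
    rw [Pi.single_eq_of_ne hj, Int.cast_zero]
    exact zero_smul ℝ _
  · intro h1
    exact absurd (Finset.mem_univ i) h1

theorem DimOff.single {u : ι} (h : DimOff A A' al al' u) {i : ι} (hi : i ≠ u) {c : ℤ} (hc : c ≠ 0) :
    finrank ℝ (rsp A ((c : ℝ) • al i)) = finrank ℝ (rsp A' ((c : ℝ) • al' i)) := by
  classical
  rw [comb_single i c, comb_single i c]
  refine h _ (fun h1 => hc ?_) ?_
  · have h2 := congrFun h1 i
    rwa [Pi.single_eq_same] at h2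
  · rw [Pi.single_eq_of_ne (Ne.symm hi)]

theorem DimOff.hd {u : ι} (h : DimOff A A' al al' u) {i : ι} (hi : i ≠ u) : finrank ℝ (rsp A (al i)) = finrank ℝ (rsp A' (al' i)) := by
  have h1 := h.single hi (c := 1) (by norm_num)
  rw [Int.cast_one] at h1
  have e1 : (1 : ℝ) • al i = al i := one_smul _ _
  have e2 : (1 : ℝ) • al' i = al' i := one_smul _ _
  rwa [e1, e2] at h1

theorem DimOff.hd2 {u : ι} (h : DimOff A A' al al' u) {i : ι} (hi : i ≠ u) :
    finrank ℝ (rsp A (al i + al i)) = finrank ℝ (rsp A' (al' i + al' i)) := by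
  have h1 := h.single hi (c := 2) (by norm_num)
  have e1 : ((2 : ℤ) : ℝ) • al i = al i + al i := by
    push_cast
    exact two_smul _ _
  have e2 : ((2 : ℤ) : ℝ) • al' i = al' i + al' i := by
    push_cast
    exact two_smul _ _
  rwa [e1, e2] at h1

theorem exists_off [Nontrivial ι] (i : ι) : ∃ u, i ≠ u := (exists_ne i).imp fun _ h => h.symm

/-- **Rank at least three.** -/
theorem hC_ge (h3 : 3 ≤ Fintype.card ι) (s : SD θ b A τ al) (s' : SD θ' b' A' τ' al') (hp : Cmb A al) (hp' : Cmb A' al')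
    (hD : ∀ u, DimOff A A' al al' u) (i j : ι) : al j (τ (al i)) * al' i (τ' (al' i)) = al' j (τ' (al' i)) * al i (τ (al i)) := by
  classical
  refine hC_of_strings s s' hp hp' ?_ i j
  intro i j hij k
  obtain ⟨u, hu1, hu2⟩ : ∃ u, u ≠ i ∧ u ≠ j := by
    by_contra h1
    push Not at h1
    have h2 : (Finset.univ : Finset ι) ⊆ {i, j} := fun u _ => by
      rw [Finset.mem_insert, Finset.mem_singleton]
      by_cases h3 : u = i
      · exact Or.inl h3
      · exact Or.inr (h1 u h3)
    have h4 := Finset.card_le_card h2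
    have h5 : ({i, j} : Finset ι).card ≤ 2 := Finset.card_le_two
    rw [Finset.card_univ] at h4
    omega
  have e1 : al j + (k : ℝ) • al i = ∑ l, (((if l = j then 1 else if l = i then (k : ℤ) else 0 : ℤ)) : ℝ) • al l := by
    rw [← comb_two hij (k : ℤ)]
    push_cast
    rfl
  have e2 : al' j + (k : ℝ) • al' i = ∑ l, (((if l = j then 1 else if l = i then (k : ℤ) else 0 : ℤ)) : ℝ) • al' l := by
    rw [← comb_two hij (k : ℤ)]
    push_cast
    rfl
  have hne : (fun l => (if l = j then 1 else if l = i then (k : ℤ) else 0 : ℤ)) ≠ 0 := by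
    intro h1
    have h2 := congrFun h1 j
    simp at h2
  rw [e1, e2, root_iff s.h (comb_ne s.li hne), root_iff s'.h (comb_ne s'.li hne), hD u _ hne (by simp [hu1, hu2])]

/-- The coefficients of `2 rho` from its values on the closed chamber. -/
theorem nc_of_tpos {κ κ' : Type} [Fintype κ] [Fintype κ'] {e : Module.Basis κ ℝ L} {e' : Module.Basis κ' ℝ L'} {wt : κ → Module.Dual ℝ A}
    {wt' : κ' → Module.Dual ℝ A'} {m : κ → ι → ℤ} {m' : κ' → ι → ℤ} (s : SD θ b A τ al) (s' : SD θ' b' A' τ' al')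
    (hE : Eb A e wt) (hE' : Eb A' e' wt') (hm : Cf al wt m) (hm' : Cf al' wt' m')
    (hρ : ∀ (c : A) (c' : A'), (∀ i, 0 ≤ al i c) → (∀ i, al i c = al' i c') → tpos A c = tpos A' c') (j : ι) : nc m j = nc m' j := by
  classical
  have hf : Module.Finite ℝ L := Module.Finite.of_basis b
  have hf' : Module.Finite ℝ L' := Module.Finite.of_basis b'
  obtain ⟨c, hc⟩ := Pool.Agent.Helper85.AE.exists_val s.li (Pi.single j 1)
  obtain ⟨c', hc'⟩ := Pool.Agent.Helper85.AE.exists_val s'.li (Pi.single j 1)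
  have h0 : ∀ i, (0 : ℝ) ≤ (Pi.single j 1 : ι → ℝ) i := by
    intro i
    by_cases h : i = j
    · subst h
      rw [Pi.single_eq_same]
      norm_num
    · rw [Pi.single_eq_of_ne h]
  have h1 := hρ c c' (fun i => by rw [hc]; exact h0 i) fun i => by rw [hc, hc']
  rw [tpos_chamber hE hm (fun i => by rw [hc]; exact h0 i), tpos_chamber hE' hm' (fun i => by rw [hc']; exact h0 i)] at h1
  have h2 : ∀ n : ι → ℤ, ∑ i, (n i : ℝ) * (Pi.single j 1 : ι → ℝ) i = n j := by
    intro n
    rw [Finset.sum_eq_single j]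
    · rw [Pi.single_eq_same, mul_one]
    · intro i _ hi
      rw [Pi.single_eq_of_ne hi, mul_zero]
    · intro h3
      exact absurd (Finset.mem_univ j) h3
  simp only [hc, hc', h2] at h1
  exact_mod_cast h1

/-- **Rank two.** -/
theorem hC_two (h2 : Fintype.card ι = 2) (s : SD θ b A τ al) (s' : SD θ' b' A' τ' al') (hp : Cmb A al) (hp' : Cmb A' al')
    (hρ : ∀ (c : A) (c' : A'), (∀ i, 0 ≤ al i c) → (∀ i, al i c = al' i c') → tpos A c = tpos A' c')
    (hd : ∀ i, finrank ℝ (rsp A (al i)) = finrank ℝ (rsp A' (al' i)))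
    (hd2 : ∀ i, finrank ℝ (rsp A (al i + al i)) = finrank ℝ (rsp A' (al' i + al' i))) (i j : ι) :
    al j (τ (al i)) * al' i (τ' (al' i)) = al' j (τ' (al' i)) * al i (τ (al i)) := by
  classical
  by_cases hij : i = j
  · subst hij
    ring
  obtain ⟨e, wt, hE⟩ := exists_eb s.h s.hA
  obtain ⟨e', wt', hE'⟩ := exists_eb s'.h s'.hA
  obtain ⟨m, hm⟩ := hE.exists_cf hp
  obtain ⟨m', hm'⟩ := hE'.exists_cf hp'
  have huniv : (Finset.univ : Finset ι) = {i, j} := by
    symm
    rw [← Finset.card_eq_iff_eq_univ, Finset.card_pair hij, h2]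
  have h1 := nc_eq s hE hm i
  have h1' := nc_eq s' hE' hm' i
  rw [huniv, Finset.sum_pair hij, hd i, hd2 i, nc_of_tpos s s' hE hE' hm hm' hρ i, nc_of_tpos s s' hE hE' hm hm' hρ j] at h1
  rw [huniv, Finset.sum_pair hij] at h1'
  have h3 : (0 : ℝ) < nc m' j := by exact_mod_cast nc_pos s' hE' hm' j
  refine mul_left_cancel₀ h3.ne' ?_
  linear_combination al' i (τ' (al' i)) * h1 - al i (τ (al i)) * h1'

/-- **The end.** -/
theorem fq_end [Nontrivial ι] [LieAlgebra.IsSimple ℝ L] [LieAlgebra.IsSimple ℝ L'] (s : SD θ b A τ al) (s' : SD θ' b' A' τ' al')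
    (hp : Cmb A al) (hp' : Cmb A' al') (hD : ∀ u, DimOff A A' al al' u)
    (hρ : Fintype.card ι = 2 → ∀ (c : A) (c' : A'), (∀ i, 0 ≤ al i c) → (∀ i, al i c = al' i c') → tpos A c = tpos A' c') :
    ∃ e : L ≃ₗ⁅ℝ⁆ L', ∀ x, e (θ x) = θ' (e x) := by
  have hd : ∀ i, finrank ℝ (rsp A (al i)) = finrank ℝ (rsp A' (al' i)) := fun i => by
    obtain ⟨u, hu⟩ := exists_off i
    exact (hD u).hd hu
  have hd2 : ∀ i, finrank ℝ (rsp A (al i + al i)) = finrank ℝ (rsp A' (al' i + al' i)) := fun i => by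
    obtain ⟨u, hu⟩ := exists_off i
    exact (hD u).hd2 hu
  refine ae_final s s' ?_ hd hd2
  have h1 : 1 < Fintype.card ι := Fintype.one_lt_card
  rcases Nat.lt_or_ge 2 (Fintype.card ι) with h2 | h2
  · exact hC_ge h2 s s' hp hp' hD
  · have h3 : Fintype.card ι = 2 := by omega
    exact hC_two h3 s s' hp hp' (hρ h3) hd hd2

end Pool.Agent.Helper68.FQ
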