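import Pool.Agent.Helper72.FQ.Kak
import Pool.Agent.Helper77.FQ.Cow
import Pool.Agent.Helper66.BD.Comm

/-!
# Project FQ (MP_0f6f3f_an), layer GD: Cartan decomposition of the centralisers of subflats

`comm_of_ex`: commuting with `exp(tM)` for all `t`. `comm_polar`: the polar parts of an element which commutes with a symmetric matrix commute with it. `conj_lev`: symmetric elements of the Lie algebra of the centraliser of `A_S` are conjugate in the
orthogonal part of the centraliser of `A_S` to elements of `A` which are nonnegative at the nodes off `S`. `lev_G`: the clause `lev` of `GD`.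
-/

set_option autoImplicit false
set_option linter.unusedSectionVars false

open Matrix NormedSpace Filter Topology

namespace Pool.Agent.Helper68.FQ

open Pool.Agent.Helper96.SA Pool.Agent.Helper96.TO Pool.Agent.Helper72.FQ Pool.Agent.Helper77.FQ

variable {N : ℕ}

/-- Commuting with a one-parameter group. -/
theorem comm_of_ex {g : GL (Fin N) ℝ} {M : Mat N} (h : ∀ t : ℝ, g * ex (t • M) = ex (t • M) * g) :
    (g : Mat N) * M = M * (g : Mat N) := by
  ext i j
  have e : ∀ t : ℝ, ∑ k, (g : Mat N) i k * (exp (t • M) : Mat N) k j = ∑ k, (exp (t • M) : Mat N) i k * (g : Mat N) k j := by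
    intro t
    have h1 := congrArg (fun x : GL (Fin N) ℝ => (x : Mat N) i j) (h t)
    simp only [Units.val_mul, ex_coe, Matrix.mul_apply] at h1
    exact h1
  have h1 : HasDerivAt (fun t : ℝ => ∑ k, (g : Mat N) i k * (exp (t • M) : Mat N) k j)
      (∑ k, (g : Mat N) i k * (M * exp ((0 : ℝ) • M)) k j) 0 :=
    HasDerivAt.fun_sum fun k _ => (hasDerivAt_exp M 0 k j).const_mul _
  have h2 : HasDerivAt (fun t : ℝ => ∑ k, (exp (t • M) : Mat N) i k * (g : Mat N) k j)
      (∑ k, (M * exp ((0 : ℝ) • M)) i k * (g : Mat N) k j) 0 :=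
    HasDerivAt.fun_sum fun k _ => (hasDerivAt_exp M 0 i k).mul_const _
  have h3 : (fun t : ℝ => ∑ k, (g : Mat N) i k * (exp (t • M) : Mat N) k j) =
      fun t : ℝ => ∑ k, (exp (t • M) : Mat N) i k * (g : Mat N) k j := funext e
  rw [h3] at h1
  have h4 := h1.unique h2
  rw [zero_smul, exp_zero, Matrix.mul_one] at h4
  rw [Matrix.mul_apply, Matrix.mul_apply]
  exact h4

/-- A matrix which commutes with `exp(2X)`, `X` symmetric, commutes with `X`. -/
theorem comm_of_exp {X M : Mat N} (hX : Xᵀ = X) (h : exp (X + X) * M = M * exp (X + X)) : X * M = M * X := by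
  obtain ⟨O, d, h1, h2, h3⟩ := Pool.Agent.Helper66.BD.exists_spec hX
  have h4 : exp (X + X) = O * diagonal (fun i => Real.exp (d i + d i)) * Oᵀ := by
    have h5 : X + X = O * diagonal (fun i => d i + d i) * Oᵀ := by
      rw [h3, ← Matrix.add_mul, ← Matrix.mul_add, diagonal_add]
    rw [h5, exp_diag O h1 h2]
  obtain ⟨M', hM'⟩ : ∃ M', M' = Oᵀ * M * O := ⟨_, rfl⟩
  have hM : M = O * M' * Oᵀ := by
    rw [hM']
    calc M = (O * Oᵀ) * M * (O * Oᵀ) := by rw [h2, Matrix.one_mul, Matrix.mul_one]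
      _ = _ := by simp only [Matrix.mul_assoc]
  have cn : ∀ D : Mat N, O * D * Oᵀ * M = O * (D * M') * Oᵀ := by
    intro D
    rw [hM]
    calc O * D * Oᵀ * (O * M' * Oᵀ) = O * D * (Oᵀ * O) * M' * Oᵀ := by simp only [Matrix.mul_assoc]
      _ = _ := by
        rw [h1, Matrix.mul_one]
        simp only [Matrix.mul_assoc]
  have cn' : ∀ D : Mat N, M * (O * D * Oᵀ) = O * (M' * D) * Oᵀ := by
    intro D
    rw [hM]
    calc O * M' * Oᵀ * (O * D * Oᵀ) = O * M' * (Oᵀ * O) * D * Oᵀ := by simp only [Matrix.mul_assoc]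
      _ = _ := by
        rw [h1, Matrix.mul_one]
        simp only [Matrix.mul_assoc]
  have cancel : ∀ P Q : Mat N, O * P * Oᵀ = O * Q * Oᵀ → P = Q := by
    intro P Q hPQ
    have h5 : Oᵀ * (O * P * Oᵀ) * O = Oᵀ * (O * Q * Oᵀ) * O := by rw [hPQ]
    have h6 : ∀ R : Mat N, Oᵀ * (O * R * Oᵀ) * O = R := by
      intro R
      calc Oᵀ * (O * R * Oᵀ) * O = (Oᵀ * O) * R * (Oᵀ * O) := by simp only [Matrix.mul_assoc]
        _ = R := by rw [h1, Matrix.one_mul, Matrix.mul_one]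
    rwa [h6, h6] at h5
  rw [h4, cn, cn'] at h
  have h5 := cancel _ _ h
  rw [h3, cn, cn']
  congr 2
  ext i j
  have h6 := congrFun (congrFun h5 i) j
  rw [Matrix.diagonal_mul, Matrix.mul_diagonal] at h6 ⊢
  by_cases h7 : M' i j = 0
  · rw [h7, mul_zero, zero_mul]
  · have h8 : Real.exp (d i + d i) = Real.exp (d j + d j) := by
      have h9 : Real.exp (d i + d i) * M' i j = Real.exp (d j + d j) * M' i j := by rw [h6, mul_comm]
      exact mul_right_cancel₀ h7 h9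
    have h9 := Real.exp_injective h8
    have h10 : d i = d j := by linarith
    rw [h10, mul_comm]

/-- The polar parts of `g` commute with the symmetric matrices which commute with `g`. -/
theorem comm_polar {g k : GL (Fin N) ℝ} {X M : Mat N} (hX : Xᵀ = X) (hk : (k : Mat N)ᵀ * (k : Mat N) = 1) (hg : g = k * ex X)
    (hM : Mᵀ = M) (hc : (g : Mat N) * M = M * (g : Mat N)) : X * M = M * X ∧ (k : Mat N) * M = M * (k : Mat N) := by
  have h1 : (g : Mat N)ᵀ * (g : Mat N) = exp (X + X) := by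
    rw [hg, Units.val_mul, Matrix.transpose_mul, ex_transpose, hX]
    calc ((ex X : GL (Fin N) ℝ) : Mat N) * (k : Mat N)ᵀ * ((k : Mat N) * ((ex X : GL (Fin N) ℝ) : Mat N))
        = ((ex X : GL (Fin N) ℝ) : Mat N) * ((k : Mat N)ᵀ * (k : Mat N)) * ((ex X : GL (Fin N) ℝ) : Mat N) := by
          simp only [Matrix.mul_assoc]
      _ = exp (X + X) := by
          rw [hk, Matrix.mul_one, ← Units.val_mul, ← ex_add rfl, ex_coe]
  have h2 : (g : Mat N)ᵀ * M = M * (g : Mat N)ᵀ := by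
    have h3 := congrArg Matrix.transpose hc
    rw [Matrix.transpose_mul, Matrix.transpose_mul, hM] at h3
    exact h3.symm
  have h3 : exp (X + X) * M = M * exp (X + X) := by
    rw [← h1, Matrix.mul_assoc, hc, ← Matrix.mul_assoc, h2, Matrix.mul_assoc]
  have h4 := comm_of_exp hX h3
  refine ⟨h4, ?_⟩
  have h5 : ((ex X : GL (Fin N) ℝ) : Mat N) * M = M * ((ex X : GL (Fin N) ℝ) : Mat N) := by
    rw [ex_coe]
    exact (Commute.exp_left (show Commute X M from h4)).eq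
  have h6 : (k : Mat N) * M * ((ex X : GL (Fin N) ℝ) : Mat N) = M * (k : Mat N) * ((ex X : GL (Fin N) ℝ) : Mat N) := by
    rw [Matrix.mul_assoc, ← h5, ← Matrix.mul_assoc, Matrix.mul_assoc M, ← Units.val_mul, ← hg, hc]
  have h7 : IsUnit ((ex X : GL (Fin N) ℝ) : Mat N) := ⟨ex X, rfl⟩
  exact h7.mul_right_cancel h6

variable {L : Type} [LieRing L] [LieAlgebra ℝ L] {θ : L ≃ₗ⁅ℝ⁆ L} {b : Module.Basis (Fin N) ℝ L}
  {A : Submodule ℝ L} {ι : Type} [Fintype ι] {al : ι → Module.Dual ℝ A} {G : Subgroup (GL (Fin N) ℝ)}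

/-- **Symmetric elements of the centraliser are conjugate into the chamber of the centraliser.** -/
theorem conj_lev (T : TD θ b A al) (hG : IsAdj b G) (S : Set ι) {X : Mat N} (hX : X ∈ lie G) (hs : Xᵀ = X)
    (hc : ∀ a : A, (∀ i, i ∉ S → al i a = 0) → X * TT_to b (a : L) = TT_to b (a : L) * X) :
    ∃ k ∈ G, (k : Mat N)ᵀ * (k : Mat N) = 1 ∧ (∀ a : A, (∀ i, i ∉ S → al i a = 0) → (k : Mat N) * TT_to b (a : L) = TT_to b (a : L) * (k : Mat N)) ∧
      ∃ a : A, (∀ i, i ∉ S → 0 ≤ al i a) ∧ (k : Mat N) * X * (k : Mat N)ᵀ = TT_to b (a : L) := by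
  have hF : Module.Finite ℝ L := Module.Finite.of_basis b
  obtain ⟨W⟩ := T.exists_wb
  obtain ⟨H0, hH0⟩ := exists_vals T.li fun _ => 1
  have hlie : lie G = lie (autG b) := lie_eq' hG.aut (lie_sub T.h hG)
  obtain ⟨H, hHd⟩ : ∃ H, H = TT_to b (H0 : L) := ⟨_, rfl⟩
  have cval : Continuous (fun g : GL (Fin N) ℝ => (g : Mat N)) := isEmbedding_val.continuous
  have cf : Continuous fun k : GL (Fin N) ℝ => Matrix.trace ((k : Mat N) * X * (k : Mat N)ᵀ * H) :=
    (((cval.matrix_mul continuous_const).matrix_mul cval.matrix_transpose).matrix_mul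
      continuous_const).matrix_trace
  -- the compact set
  obtain ⟨Cn, hCn⟩ : ∃ Cn : Set (GL (Fin N) ℝ), Cn = {k : GL (Fin N) ℝ | ∀ a : A, (∀ i, i ∉ S → al i a = 0) →
    (k : Mat N) * TT_to b (a : L) = TT_to b (a : L) * (k : Mat N)} := ⟨_, rfl⟩
  have mCn : ∀ k, k ∈ Cn ↔ ∀ a : A, (∀ i, i ∉ S → al i a = 0) → (k : Mat N) * TT_to b (a : L) = TT_to b (a : L) * (k : Mat N) := by
    intro k
    rw [hCn]
    exact Iff.rfl
  have clCn : IsClosed Cn := by
    have h1 : Cn = ⋂ a : A, ⋂ _ : ∀ i, i ∉ S → al i a = 0, {k : GL (Fin N) ℝ | (k : Mat N) * TT_to b (a : L) = TT_to b (a : L) * (k : Mat N)} := by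
      ext k
      rw [mCn, Set.mem_iInter₂]
      exact Iff.rfl
    rw [h1]
    exact isClosed_iInter fun a => isClosed_iInter fun _ =>
      isClosed_eq (cval.matrix_mul continuous_const) (continuous_const.matrix_mul cval)
  obtain ⟨k, ⟨⟨hkG, hk1⟩, hkC⟩, hkm⟩ := ((isCompact_orth hG.closed).inter_right clCn).exists_isMaxOn
    ⟨1, ⟨G.one_mem, by rw [Units.val_one, Matrix.transpose_one, Matrix.one_mul]⟩, (mCn 1).2 fun a _ => by
      rw [Units.val_one, Matrix.one_mul, Matrix.mul_one]⟩ cf.continuousOn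
  have hkinv : ((k⁻¹ : GL (Fin N) ℝ) : Mat N) = (k : Mat N)ᵀ := Units.inv_eq_of_mul_eq_one_left hk1
  have hkk' : (k : Mat N) * (k : Mat N)ᵀ = 1 := mul_eq_one_comm.1 hk1
  refine ⟨k, hkG, hk1, (mCn k).1 hkC, ?_⟩
  have hX' := lie_conj hkG hX
  rw [hkinv] at hX'
  obtain ⟨X', hXd⟩ : ∃ X' : Mat N, X' = (k : Mat N) * X * (k : Mat N)ᵀ := ⟨_, rfl⟩
  rw [← hXd] at hX' ⊢
  have hs' : X'ᵀ = X' := by
    rw [hXd, Matrix.transpose_mul, Matrix.transpose_mul, Matrix.transpose_transpose, hs,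
      Matrix.mul_assoc]
  have hsymA : ∀ a : A, (TT_to b (a : L))ᵀ = TT_to b (a : L) := fun a => (TT_symm_iff_to T.h _).2 (T.hA.neg _ a.2)
  have hkT : ∀ a : A, (∀ i, i ∉ S → al i a = 0) → (k : Mat N)ᵀ * TT_to b (a : L) = TT_to b (a : L) * (k : Mat N)ᵀ := by
    intro a ha
    have h1 := congrArg Matrix.transpose ((mCn k).1 hkC a ha)
    rw [Matrix.transpose_mul, Matrix.transpose_mul, hsymA a] at h1
    exact h1.symm
  have hc' : ∀ a : A, (∀ i, i ∉ S → al i a = 0) → X' * TT_to b (a : L) = TT_to b (a : L) * X' := by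
    intro a ha
    rw [hXd, Matrix.mul_assoc, hkT a ha, ← Matrix.mul_assoc, Matrix.mul_assoc (k : Mat N), hc a ha, ← Matrix.mul_assoc,
      (mCn k).1 hkC a ha]
    simp only [Matrix.mul_assoc]
  have hHG : H ∈ lie G := by
    rw [hHd, hlie]
    exact TT_mem_to b _
  have hHs : Hᵀ = H := by
    rw [hHd]
    exact hsymA H0
  have hHc : ∀ a : A, H * TT_to b (a : L) = TT_to b (a : L) * H := by
    intro a
    rw [hHd]
    exact TT_commA T.hA _ _
  -- the maximum property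
  have hle : ∀ Z ∈ lie G, Zᵀ = -Z → (∀ a : A, (∀ i, i ∉ S → al i a = 0) → Z * TT_to b (a : L) = TT_to b (a : L) * Z) →
      ∀ t : ℝ, Matrix.trace (exp (t • Z) * X' * exp (t • (-Z)) * H) ≤
      Matrix.trace (exp ((0 : ℝ) • Z) * X' * exp ((0 : ℝ) • (-Z)) * H) := by
    intro Z hZ hZt hZc t
    have e0 : exp ((0 : ℝ) • Z) * X' * exp ((0 : ℝ) • (-Z)) * H = X' * H := by
      rw [zero_smul, zero_smul, exp_zero, Matrix.mul_one, Matrix.one_mul]
    rw [e0]
    have e1 : ((ex (t • Z) : GL (Fin N) ℝ) : Mat N)ᵀ = exp (t • (-Z)) := by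
      rw [ex_transpose, ex_coe, Matrix.transpose_smul, hZt]
    have e2 : exp (t • (-Z)) * exp (t • Z) = 1 := by
      rw [smul_neg, ← ex_coe, ← ex_coe, ← Units.val_mul, ex_neg, inv_mul_cancel, Units.val_one]
    have hmem : (ex (t • Z) * k) ∈ {k : GL (Fin N) ℝ | k ∈ G ∧ (k : Mat N)ᵀ * (k : Mat N) = 1} ∩ Cn := by
      refine ⟨⟨G.mul_mem (mem_lie.1 hZ t) hkG, ?_⟩, (mCn _).2 fun a ha => ?_⟩
      · rw [Units.val_mul, Matrix.transpose_mul, e1, ex_coe]
        calc (k : Mat N)ᵀ * exp (t • (-Z)) * (exp (t • Z) * (k : Mat N))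
            = (k : Mat N)ᵀ * (exp (t • (-Z)) * exp (t • Z)) * (k : Mat N) := by
              simp only [Matrix.mul_assoc]
          _ = 1 := by rw [e2, Matrix.mul_one, hk1]
      · have h1 : exp (t • Z) * TT_to b (a : L) = TT_to b (a : L) * exp (t • Z) := by
          refine (Commute.exp_left (show Commute (t • Z) (TT_to b (a : L)) from ?_)).eq
          change t • Z * TT_to b (a : L) = TT_to b (a : L) * (t • Z)
          rw [Matrix.smul_mul, Matrix.mul_smul, hZc a ha]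
        rw [Units.val_mul, ex_coe, Matrix.mul_assoc, (mCn k).1 hkC a ha, ← Matrix.mul_assoc, h1, Matrix.mul_assoc]
    have h1 := hkm hmem
    have h2 : Matrix.trace (((ex (t • Z) * k : GL (Fin N) ℝ) : Mat N) * X *
        ((ex (t • Z) * k : GL (Fin N) ℝ) : Mat N)ᵀ * H) ≤ Matrix.trace (X' * H) := by
      rw [hXd]
      exact h1
    rw [Units.val_mul, Matrix.transpose_mul, e1, ex_coe] at h2
    have e3 : exp (t • Z) * (k : Mat N) * X * ((k : Mat N)ᵀ * exp (t • (-Z))) * H =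
        exp (t • Z) * X' * exp (t • (-Z)) * H := by
      rw [hXd]
      simp only [Matrix.mul_assoc]
    rw [e3] at h2
    exact h2
  -- first order
  have hcm : X' * H = H * X' := by
    obtain ⟨Z, hZd⟩ : ∃ Z : Mat N, Z = X' * H - H * X' := ⟨_, rfl⟩
    have hZ : Z ∈ lie G := by
      rw [hZd]
      exact lie_bracket hG.closed hX' hHG
    have hZt : Zᵀ = -Z := by
      rw [hZd, Matrix.transpose_sub, Matrix.transpose_mul, Matrix.transpose_mul, hs', hHs, neg_sub]
    have hZc : ∀ a : A, (∀ i, i ∉ S → al i a = 0) → Z * TT_to b (a : L) = TT_to b (a : L) * Z := by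
      intro a ha
      have c1 : Commute X' (TT_to b (a : L)) := hc' a ha
      have c2 : Commute H (TT_to b (a : L)) := hHc a
      rw [hZd]
      exact ((c1.mul_left c2).sub_left (c2.mul_left c1)).eq
    have hloc : IsLocalMax (fun t : ℝ => Matrix.trace (exp (t • Z) * X' * exp (t • (-Z)) * H)) 0 :=
      Eventually.of_forall fun t => hle Z hZ hZt hZc t
    have h0 := hloc.hasDerivAt_eq_zero (hasDerivAt_conj Z X' H 0)
    rw [zero_smul, zero_smul, exp_zero, Matrix.one_mul, Matrix.mul_one] at h0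
    have h1 : Matrix.trace (Z * Z) = 0 := by
      have e1 : Matrix.trace (X' * Z * H) = Matrix.trace (Z * (H * X')) := by
        rw [Matrix.mul_assoc, Matrix.trace_mul_comm, Matrix.mul_assoc]
      have e2 : Matrix.trace (Z * Z) = Matrix.trace ((Z * X' - X' * Z) * H) := by
        rw [Matrix.sub_mul, Matrix.trace_sub, e1]
        nth_rewrite 2 [hZd]
        rw [Matrix.mul_sub, Matrix.trace_sub, Matrix.mul_assoc]
      rw [e2, h0]
    have h2 : Z = 0 := by
      have e1 : Matrix.trace (Zᵀ * Z) = 0 := by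
        rw [hZt, Matrix.neg_mul, Matrix.trace_neg, h1, neg_zero]
      have e2 : Matrix.trace (Zᴴ * Z) = 0 := by
        rw [Matrix.conjTranspose_eq_transpose_of_trivial, e1]
      exact Matrix.trace_conjTranspose_mul_self_eq_zero_iff.1 e2
    rw [← sub_eq_zero, ← hZd, h2]
  obtain ⟨x, hx⟩ : ∃ x, TT_to b x = X' := TT_surj_to T.h (hlie ▸ hX')
  have hxθ : θ x = -x := (TT_symm_iff_to T.h x).1 (by rw [hx]; exact hs')
  have hxH : ⁅x, (H0 : L)⁆ = 0 := (TT_comm_iff_to T.h x H0).1 (by rw [hx, ← hHd]; exact hcm)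
  have hxA : x ∈ A := by
    refine T.hA.max x hxθ fun y hy => ?_
    have h1 := W.comm_of (H0 := H0) (fun i => by rw [hH0]; exact one_pos) (x := x) (by rw [← lie_skew, hxH, neg_zero]) ⟨y, hy⟩
    rw [← lie_skew, h1, neg_zero]
  refine ⟨⟨x, hxA⟩, fun i hi => ?_, hx.symm⟩
  -- second order
  obtain ⟨-, e, he0, he⟩ := T.rt i
  obtain ⟨E, hE⟩ : ∃ E, E = TT_to b e := ⟨_, rfl⟩
  have hEt : Eᵀ = -TT_to b (θ e) := by rw [hE]; exact TT_transpose_to T.h e
  obtain ⟨Z, hZd⟩ : ∃ Z : Mat N, Z = E - Eᵀ := ⟨_, rfl⟩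
  have hZ : Z ∈ lie G := by
    rw [hZd, hEt, hE, hlie, sub_neg_eq_add, ← map_add]
    exact TT_mem_to b _
  have hZt : Zᵀ = -Z := by
    rw [hZd, Matrix.transpose_sub, Matrix.transpose_transpose, neg_sub]
  have hcE : ∀ a : A, TT_to b (a : L) * E - E * TT_to b (a : L) = al i a • E := by
    intro a
    rw [hE, ← TT_lie_to, he a, map_smul]
  have hcEt : ∀ a : A, TT_to b (a : L) * Eᵀ - Eᵀ * TT_to b (a : L) = -(al i a • Eᵀ) := by
    intro a
    have h1 := congrArg Matrix.transpose (hcE a)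
    rw [Matrix.transpose_sub, Matrix.transpose_mul, Matrix.transpose_mul, Matrix.transpose_smul,
      (TT_symm_iff_to T.h _).2 (T.hA.neg _ a.2)] at h1
    rw [← h1]
    abel
  have hZc : ∀ a : A, (∀ i, i ∉ S → al i a = 0) → Z * TT_to b (a : L) = TT_to b (a : L) * Z := by
    intro a ha
    have h1 := hcE a
    have h2 := hcEt a
    rw [ha i hi, zero_smul] at h1 h2
    rw [neg_zero] at h2
    have h3 : TT_to b (a : L) * E = E * TT_to b (a : L) := sub_eq_zero.1 h1
    have h4 : TT_to b (a : L) * Eᵀ = Eᵀ * TT_to b (a : L) := sub_eq_zero.1 h2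
    rw [hZd, Matrix.sub_mul, Matrix.mul_sub, h3, h4]
  obtain ⟨a, ha⟩ : ∃ a : A, a = ⟨x, hxA⟩ := ⟨_, rfl⟩
  have hXa : X' = TT_to b (a : L) := by rw [ha]; exact hx.symm
  rw [← ha]
  have hB1 : Z * X' - X' * Z = -(al i a • (E + Eᵀ)) := by
    have h1 := hcE a
    have h2 := hcEt a
    rw [← hXa] at h1 h2
    calc Z * X' - X' * Z = -(X' * E - E * X') + (X' * Eᵀ - Eᵀ * X') := by
          rw [hZd]
          noncomm_ring
      _ = _ := by
          rw [h1, h2, smul_add]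
          abel
  have hB2 : Z * (Z * X' - X' * Z) - (Z * X' - X' * Z) * Z = -((2 * al i a) • (E * Eᵀ - Eᵀ * E)) := by
    rw [hB1, hZd, Matrix.mul_neg, Matrix.neg_mul, Matrix.mul_smul, Matrix.smul_mul, neg_sub_neg, ← smul_sub, mul_smul,
      smul_comm (2 : ℝ), ← smul_neg]
    congr 1
    rw [two_smul]
    noncomm_ring
  have h3 := snd_order (f := fun t : ℝ => Matrix.trace (exp (t • Z) * X' * exp (t • (-Z)) * H))
    (fun t => hasDerivAt_conj Z X' H t) (hasDerivAt_conj Z (Z * X' - X' * Z) H 0) (hle Z hZ hZt hZc)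
  rw [zero_smul, zero_smul, exp_zero, Matrix.one_mul, Matrix.mul_one, hB2, Matrix.neg_mul, Matrix.trace_neg, Matrix.smul_mul,
    Matrix.trace_smul, smul_eq_mul] at h3
  have h4 : Matrix.trace ((E * Eᵀ - Eᵀ * E) * H) = Matrix.trace (Eᵀ * E) := by
    have h5 := hcE H0
    rw [hH0, one_smul, ← hHd] at h5
    rw [Matrix.sub_mul, Matrix.trace_sub]
    have e1 : Matrix.trace (E * Eᵀ * H) = Matrix.trace (Eᵀ * (H * E)) := by
      rw [Matrix.mul_assoc, Matrix.trace_mul_comm, Matrix.mul_assoc]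
    rw [e1, Matrix.mul_assoc, ← Matrix.trace_sub, ← Matrix.mul_sub, h5]
  have h5 : 0 < Matrix.trace (Eᵀ * E) := by
    have h6 : 0 ≤ Matrix.trace (Eᵀ * E) := by
      refine Finset.sum_nonneg fun p _ => ?_
      rw [Matrix.diag_apply, Matrix.mul_apply]
      exact Finset.sum_nonneg fun q _ => mul_self_nonneg _
    refine lt_of_le_of_ne h6 fun h7 => he0 ?_
    have h8 : Matrix.trace (Eᴴ * E) = 0 := by
      rw [Matrix.conjTranspose_eq_transpose_of_trivial]
      exact h7.symm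
    have h9 := Matrix.trace_conjTranspose_mul_self_eq_zero_iff.1 h8
    apply TT_inj_to T.h
    rw [← hE, h9, map_zero]
  rw [h4] at h3
  nlinarith

/-- **The Cartan decomposition of the centraliser of `A_S`.** -/
theorem exists_lev (T : TD θ b A al) (hG : IsAdj b G) (S : Set ι) {l : GL (Fin N) ℝ} (hl : l ∈ G)
    (hc : ∀ a : A, (∀ i, i ∉ S → al i a = 0) → (l : Mat N) * TT_to b (a : L) = TT_to b (a : L) * (l : Mat N)) :
    ∃ k k' : GL (Fin N) ℝ, k ∈ G ∧ k' ∈ G ∧ (k : Mat N)ᵀ * (k : Mat N) = 1 ∧ (k' : Mat N)ᵀ * (k' : Mat N) = 1 ∧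
      (∀ a : A, (∀ i, i ∉ S → al i a = 0) → (k : Mat N) * TT_to b (a : L) = TT_to b (a : L) * (k : Mat N)) ∧
      (∀ a : A, (∀ i, i ∉ S → al i a = 0) → (k' : Mat N) * TT_to b (a : L) = TT_to b (a : L) * (k' : Mat N)) ∧
      ∃ a : A, (∀ i, i ∉ S → 0 ≤ al i a) ∧ l = k * ex (TT_to b (a : L)) * k' := by
  have hS := selfAdj_of_aut T.h hG
  have hsymA : ∀ a : A, (TT_to b (a : L))ᵀ = TT_to b (a : L) := fun a => (TT_symm_iff_to T.h _).2 (T.hA.neg _ a.2)
  obtain ⟨X, hX, hXs, k, hk, hkk, hgk⟩ := polar hS hl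
  have hpc : ∀ a : A, (∀ i, i ∉ S → al i a = 0) → X * TT_to b (a : L) = TT_to b (a : L) * X ∧
      (k : Mat N) * TT_to b (a : L) = TT_to b (a : L) * (k : Mat N) := fun a ha => comm_polar hXs hkk hgk (hsymA a) (hc a ha)
  obtain ⟨k', hk', hkk', hkc', a, ha, hXa⟩ := conj_lev T hG S hX hXs fun a ha => (hpc a ha).1
  have hinv : ((k'⁻¹ : GL (Fin N) ℝ) : Mat N) = (k' : Mat N)ᵀ := Units.inv_eq_of_mul_eq_one_left hkk'
  have hex : k' * ex X * k'⁻¹ = ex (TT_to b (a : L)) := by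
    rw [← hXa, ← hinv]
    exact (ex_conj k' X).symm
  refine ⟨k * k'⁻¹, k', G.mul_mem hk (G.inv_mem hk'), hk', ?_, hkk', fun a ha => ?_, hkc', a, ha, ?_⟩
  · rw [Units.val_mul, hinv, Matrix.transpose_mul, Matrix.transpose_transpose]
    calc (k' : Mat N) * (k : Mat N)ᵀ * ((k : Mat N) * (k' : Mat N)ᵀ) = (k' : Mat N) * ((k : Mat N)ᵀ * (k : Mat N)) * (k' : Mat N)ᵀ := by
          simp only [Matrix.mul_assoc]
      _ = 1 := by rw [hkk, Matrix.mul_one, mul_eq_one_comm.1 hkk']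
  · have h1 : (k' : Mat N)ᵀ * TT_to b (a : L) = TT_to b (a : L) * (k' : Mat N)ᵀ := by
      have h2 := congrArg Matrix.transpose (hkc' a ha)
      rw [Matrix.transpose_mul, Matrix.transpose_mul, hsymA a] at h2
      exact h2.symm
    rw [Units.val_mul, hinv, Matrix.mul_assoc, h1, ← Matrix.mul_assoc, (hpc a ha).2, Matrix.mul_assoc]
  · rw [← hex, hgk]
    group

section

variable [DecidableEq ι]

/-- **The clause `lev` of the group data.** -/
theorem lev_G (T : TD θ b A al) (hG : IsAdj b G) {W : ι → A} (hW : ∀ i j, al i (W j) = if i = j then 1 else 0)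
    (hW' : ∀ H : A, H = ∑ i, al i H • W i) (S : Set ι) (l : G)
    (hl : ∀ c : ι → ℝ, (∀ i, i ∉ S → c i = 0) → l * eaG hG W c = eaG hG W c * l) :
    ∃ k1 : G, ((k1 : GL (Fin N) ℝ) : Mat N)ᵀ * ((k1 : GL (Fin N) ℝ) : Mat N) = 1 ∧
      ∃ k2 : G, ((k2 : GL (Fin N) ℝ) : Mat N)ᵀ * ((k2 : GL (Fin N) ℝ) : Mat N) = 1 ∧
      ∃ c : ι → ℝ, (∀ i, i ∉ S → 0 ≤ c i) ∧ l = k1 * eaG hG W c * k2 ∧
      ∀ c' : ι → ℝ, (∀ i, i ∉ S → c' i = 0) → k1 * eaG hG W c' = eaG hG W c' * k1 ∧ k2 * eaG hG W c' = eaG hG W c' * k2 := by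
  have key : ∀ a : A, (∀ i, i ∉ S → al i a = 0) →
      ((l : GL (Fin N) ℝ) : Mat N) * TT_to b (a : L) = TT_to b (a : L) * ((l : GL (Fin N) ℝ) : Mat N) := by
    intro a ha
    refine comm_of_ex fun t => ?_
    have h1 := hl (fun i => al i (t • a)) fun i hi => by rw [map_smul, ha i hi, smul_zero]
    have h2 := congrArg Subtype.val h1
    change (l : GL (Fin N) ℝ) * ((eaG hG W fun i => al i (t • a) : G) : GL (Fin N) ℝ) =
      ((eaG hG W fun i => al i (t • a) : G) : GL (Fin N) ℝ) * (l : GL (Fin N) ℝ) at h2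
    rwa [eaG_al hG hW', Submodule.coe_smul, map_smul] at h2
  obtain ⟨k, k', hk, hk', hkk, hkk', hkc, hkc', a, ha, hla⟩ := exists_lev T hG S l.2 key
  have hcm : ∀ {k : GL (Fin N) ℝ} (hk : k ∈ G), (∀ a : A, (∀ i, i ∉ S → al i a = 0) →
      (k : Mat N) * TT_to b (a : L) = TT_to b (a : L) * (k : Mat N)) → ∀ c' : ι → ℝ, (∀ i, i ∉ S → c' i = 0) →
      (⟨k, hk⟩ : G) * eaG hG W c' = eaG hG W c' * ⟨k, hk⟩ := by
    intro k hk h1 c' hc'
    refine Subtype.ext ?_
    change k * ex _ = ex _ * k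
    exact ex_commute (h1 _ fun i hi => by rw [al_eaA hW, hc' i hi])
  refine ⟨⟨k, hk⟩, hkk, ⟨k', hk'⟩, hkk', fun i => al i a, ha, ?_, fun c' hc' => ⟨hcm hk hkc c' hc', hcm hk' hkc' c' hc'⟩⟩
  refine Subtype.ext ?_
  change (l : GL (Fin N) ℝ) = k * ((eaG hG W fun i => al i a : G) : GL (Fin N) ℝ) * k'
  rw [eaG_al hG hW']
  exact hla

end

end Pool.Agent.Helper68.FQ
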