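import Pool.Agent.Helper68.FQ.Eb
import Pool.Agent.Helper25.AE.SD

/-!
# Project FQ (MP_0f6f3f_an), layer END: the functional `2 rho`

`rho_eq`: `2 rho (t_(al i)) = (dim g_(al i) + 2 dim g_(2 al i)) (al i, al i)` for a simple root `al i`, because the trace of `[ad x, ad (θ x)]`, `x ∈ g_(al i)`, on the sum of the root spaces of the positive roots which are not multiples of `al i` is zero.
`rank_two`: in rank two the functional `2 rho` and the dimensions `dim g_(al i)`, `dim g_(2 al i)` determine the Cartan integers.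
-/

set_option autoImplicit false
set_option linter.unusedSectionVars false

namespace Pool.Agent.Helper68.FQ

open Module Pool.Agent.Helper96.SA Pool.Agent.Helper96.TO Pool.Agent.Helper69.SLN Pool.Agent.Helper77.LA Pool.Agent.Helper25.AE
  Pool.Agent.Helper77.TZ2 Pool.Agent.Helper77.ST

variable {L : Type} [LieRing L] [LieAlgebra ℝ L] {N : ℕ} {θ : L ≃ₗ⁅ℝ⁆ L} {b : Module.Basis (Fin N) ℝ L} {A : Submodule ℝ L}
  {τ : Module.Dual ℝ A ≃ₗ[ℝ] A} {ι κ : Type} [Fintype ι] [Fintype κ] {al : ι → Module.Dual ℝ A}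
  {e : Module.Basis κ ℝ L} {wt : κ → Module.Dual ℝ A} {m : κ → ι → ℤ}

theorem Cf.nonneg (hm : Cf al wt m) {k : κ} {j : ι} (h : 0 < m k j) (i : ι) : 0 ≤ m k i := by
  rcases hm.sgn k with h1 | h1
  · exact h1 i
  · have := h1 j
    omega

theorem Cf.add (hl : LinearIndependent ℝ al) (hm : Cf al wt m) {i : ι} {k l : κ} {c : ℤ} (h : wt l = wt k + (c : ℝ) • al i) [DecidableEq ι] (j : ι) :
    m l j = m k j + if j = i then c else 0 := by
  have h1 : ∑ j, (m l j : ℝ) • al j = ∑ j, ((m k j + if j = i then c else 0 : ℤ) : ℝ) • al j := by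
    rw [← hm.eq l, h, hm.eq k]
    have h2 : ∀ j, ((m k j + if j = i then c else 0 : ℤ) : ℝ) • al j = (m k j : ℝ) • al j + if j = i then (c : ℝ) • al i else 0 := by
      intro j
      split_ifs with h3
      · subst h3
        push_cast
        module
      · push_cast
        module
    rw [Finset.sum_congr rfl fun j _ => h2 j, Finset.sum_add_distrib, Finset.sum_ite_eq' Finset.univ i, if_pos (Finset.mem_univ i)]
  exact congrFun (Cf.inj hl h1) j

open Classical in
/-- The positive weights which are not multiples of `al i`. -/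
noncomputable def Sx (m : κ → ι → ℤ) (i : ι) : Finset κ := Finset.univ.filter fun k => ∃ j, j ≠ i ∧ 0 < m k j

theorem mem_Sx {i : ι} {k : κ} : k ∈ Sx m i ↔ ∃ j, j ≠ i ∧ 0 < m k j := by
  simp [Sx]

/-- The trace on the nilradical of a minimal parabolic subalgebra. -/
theorem trace_zero (s : SD θ b A τ al) (hE : Eb A e wt) (hm : Cf al wt m) (i : ι) : ∑ k ∈ Sx m i, wt k (τ (al i)) = 0 := by
  classical
  obtain ⟨-, x, hx0, hx⟩ := s.hS.root i
  have hx : Wv A (al i) x := hx
  have hy : Wv A (-al i) (θ x) := hx.theta s.hA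
  have hκ : killingForm ℝ L x (θ x) ≠ 0 := by
    have := pos s.h hx0
    intro h0
    rw [h0] at this
    linarith
  have hxy : ⁅x, θ x⁆ = killingForm ℝ L x (θ x) • (τ (al i) : L) := lie_theta_self s.hτ s.h s.hA hx
  -- the matrices
  obtain ⟨X, hX⟩ : ∃ X : κ → κ → ℝ, ∀ l k, X l k = e.repr ⁅x, e k⁆ l := ⟨_, fun _ _ => rfl⟩
  obtain ⟨Y, hY⟩ : ∃ Y : κ → κ → ℝ, ∀ l k, Y l k = e.repr ⁅θ x, e k⁆ l := ⟨_, fun _ _ => rfl⟩
  have cx : ∀ z k, e.repr ⁅x, z⁆ k = ∑ l, X k l * e.repr z l := by
    intro z k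
    conv_lhs => rw [← e.sum_repr z]
    rw [lie_sum, map_sum, Finsupp.finsetSum_apply]
    refine Finset.sum_congr rfl fun l _ => ?_
    rw [lie_smul, map_smul, Finsupp.smul_apply, hX, smul_eq_mul, mul_comm]
  have cy : ∀ z k, e.repr ⁅θ x, z⁆ k = ∑ l, Y k l * e.repr z l := by
    intro z k
    conv_lhs => rw [← e.sum_repr z]
    rw [lie_sum, map_sum, Finsupp.finsetSum_apply]
    refine Finset.sum_congr rfl fun l _ => ?_
    rw [lie_smul, map_smul, Finsupp.smul_apply, hY, smul_eq_mul, mul_comm]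
  have sX : ∀ l k, X l k ≠ 0 → wt l = wt k + (1 : ℝ) • al i := by
    intro l k h
    rw [hX] at h
    rw [hE.mem (hx.lie (hE k)) h, one_smul, add_comm]
  have sY : ∀ l k, Y l k ≠ 0 → wt l = wt k + (-1 : ℝ) • al i := by
    intro l k h
    rw [hY] at h
    rw [hE.mem (hy.lie (hE k)) h]
    module
  have pX : ∀ l k, X l k ≠ 0 → k ∈ Sx m i → l ∈ Sx m i := by
    intro l k h hk
    obtain ⟨j, hj, hjk⟩ := mem_Sx.1 hk
    have h1 := Cf.add (c := 1) (i := i) s.li hm (by rw [Int.cast_one]; exact sX l k h) j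
    rw [if_neg hj, add_zero] at h1
    exact mem_Sx.2 ⟨j, hj, by rw [h1]; exact hjk⟩
  have pY : ∀ l k, Y l k ≠ 0 → k ∈ Sx m i → l ∈ Sx m i := by
    intro l k h hk
    obtain ⟨j, hj, hjk⟩ := mem_Sx.1 hk
    have h1 := Cf.add (c := -1) (i := i) s.li hm (by rw [Int.cast_neg, Int.cast_one]; exact sY l k h) j
    rw [if_neg hj, add_zero] at h1
    exact mem_Sx.2 ⟨j, hj, by rw [h1]; exact hjk⟩
  have hd : ∀ k, killingForm ℝ L x (θ x) * wt k (τ (al i)) = ∑ l, X k l * Y l k - ∑ l, Y k l * X l k := by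
    intro k
    have h1 : e.repr ⁅⁅x, θ x⁆, e k⁆ k = killingForm ℝ L x (θ x) * wt k (τ (al i)) := by
      rw [hxy, smul_lie, hE k (τ (al i)), map_smul, map_smul, e.repr_self, Finsupp.smul_apply, Finsupp.smul_apply, Finsupp.single_eq_same,
        smul_eq_mul, smul_eq_mul, mul_one]
    rw [← h1, lie_lie, map_sub, Finsupp.sub_apply, cx, cy]
    simp only [hX, hY]
  have h2 : ∑ k ∈ Sx m i, killingForm ℝ L x (θ x) * wt k (τ (al i)) = 0 := by
    rw [Finset.sum_congr rfl fun k _ => hd k, Finset.sum_sub_distrib]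
    have h3 : ∀ k ∈ Sx m i, ∑ l, X k l * Y l k = ∑ l ∈ Sx m i, X k l * Y l k := by
      intro k hk
      refine (Finset.sum_subset (Finset.subset_univ _) fun l _ hl => ?_).symm
      by_cases h4 : Y l k = 0
      · rw [h4, mul_zero]
      · exact absurd (pY l k h4 hk) hl
    have h5 : ∀ k ∈ Sx m i, ∑ l, Y k l * X l k = ∑ l ∈ Sx m i, Y k l * X l k := by
      intro k hk
      refine (Finset.sum_subset (Finset.subset_univ _) fun l _ hl => ?_).symm
      by_cases h4 : X l k = 0
      · rw [h4, mul_zero]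
      · exact absurd (pX l k h4 hk) hl
    rw [Finset.sum_congr rfl h3, Finset.sum_congr rfl h5, sub_eq_zero, Finset.sum_comm]
    refine Finset.sum_congr rfl fun l _ => Finset.sum_congr rfl fun k _ => mul_comm _ _
  rw [← Finset.mul_sum] at h2
  exact (mul_eq_zero.1 h2).resolve_left hκ

open Classical in
/-- The positive weights. -/
noncomputable def Px (m : κ → ι → ℤ) : Finset κ := Finset.univ.filter fun k => ∃ j, 0 < m k j

theorem mem_Px {k : κ} : k ∈ Px m ↔ ∃ j, 0 < m k j := by
  simp [Px]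

/-- The positive multiples of a simple root. -/
theorem mul_root (s : SD θ b A τ al) {i : ι} {c : ℤ} (hc : 0 < c) (h : (c : ℝ) • al i ∈ rootsL A) : c = 1 ∨ c = 2 := by
  obtain ⟨n, hn, -⟩ := refl s.h s.hA s.hτ (s.hS.root i) h
  have h1 := s.pos i
  have hc' : (0 : ℝ) < c := by exact_mod_cast hc
  rw [map_smul, LinearMap.smul_apply, map_smul, smul_eq_mul, smul_eq_mul] at hn
  have h2 : (2 : ℝ) = n * c := by
    have h3 : (c : ℝ) * al i (τ (al i)) ≠ 0 := (mul_pos hc' h1).ne'
    refine mul_right_cancel₀ h3 ?_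
    linarith
  have h4 : (2 : ℤ) = n * c := by exact_mod_cast h2
  have h5 : c ∣ 2 := ⟨n, by rw [h4, mul_comm]⟩
  have h6 := Int.le_of_dvd (by norm_num) h5
  omega

theorem Cf.eq_single (hl : LinearIndependent ℝ al) (hm : Cf al wt m) {i : ι} {k : κ} {c : ℤ} [DecidableEq ι] :
    wt k = (c : ℝ) • al i ↔ m k = Pi.single i c := by
  constructor
  · intro h
    refine Cf.inj hl ?_
    rw [← hm.eq k, h, Finset.sum_eq_single i]
    · rw [Pi.single_eq_same]
    · intro j _ hj
      rw [Pi.single_eq_of_ne hj, Int.cast_zero]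
      exact zero_smul ℝ _
    · intro h1
      exact absurd (Finset.mem_univ i) h1
  · intro h
    rw [hm.eq k, h, Finset.sum_eq_single i]
    · rw [Pi.single_eq_same]
    · intro j _ hj
      rw [Pi.single_eq_of_ne hj, Int.cast_zero]
      exact zero_smul ℝ _
    · intro h1
      exact absurd (Finset.mem_univ i) h1

/-- **The functional `2 rho`.** -/
theorem rho_eq (s : SD θ b A τ al) (hE : Eb A e wt) (hm : Cf al wt m) (i : ι) : ∑ k ∈ Px m, wt k (τ (al i)) =
    ((finrank ℝ (rsp A (al i)) : ℝ) + 2 * finrank ℝ (rsp A (al i + al i))) * al i (τ (al i)) := by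
  classical
  have hsub : Sx m i ⊆ Px m := fun k hk => by
    obtain ⟨j, -, hj⟩ := mem_Sx.1 hk
    exact mem_Px.2 ⟨j, hj⟩
  rw [← Finset.sum_sdiff hsub, trace_zero s hE hm i, add_zero]
  have h1 : Px m \ Sx m i = (Finset.univ.filter fun k => wt k = al i) ∪ Finset.univ.filter fun k => wt k = al i + al i := by
    ext k
    have e1 : al i = ((1 : ℤ) : ℝ) • al i := by
      push_cast
      exact (one_smul _ _).symm
    have e2 : al i + al i = ((2 : ℤ) : ℝ) • al i := by
      push_cast
      exact (two_smul _ _).symm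
    have f1 : wt k = al i ↔ m k = Pi.single i 1 := by
      rw [← Cf.eq_single s.li hm]
      push_cast
      rw [show (1 : ℝ) • al i = al i from one_smul _ _]
    have f2 : wt k = al i + al i ↔ m k = Pi.single i 2 := by
      rw [← Cf.eq_single s.li hm, e2]
    rw [Finset.mem_sdiff, mem_Px, mem_Sx, Finset.mem_union, Finset.mem_filter, Finset.mem_filter, f1, f2]
    constructor
    · rintro ⟨⟨j, hj⟩, h2⟩
      push Not at h2
      have hji : j = i := by
        by_contra h3
        have := h2 j h3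
        omega
      subst hji
      have h3 : m k = Pi.single j (m k j) := by
        funext l
        by_cases hl : l = j
        · subst hl
          rw [Pi.single_eq_same]
        · rw [Pi.single_eq_of_ne hl]
          have h4 := h2 l hl
          have h5 := hm.nonneg hj l
          omega
      have h4 : wt k = ((m k j : ℤ) : ℝ) • al j := (Cf.eq_single s.li hm).2 h3
      have h5 : wt k ≠ 0 := by
        rw [h4]
        intro h6
        rcases smul_eq_zero.1 h6 with h7 | h7
        · have : m k j = 0 := by exact_mod_cast h7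
          omega
        · exact (s.hS.root j).1 h7
      have h6 := hE.root h5
      rw [h4] at h6
      rcases mul_root s hj h6 with h7 | h7
      · left
        refine ⟨Finset.mem_univ _, ?_⟩
        rw [h3, h7]
      · right
        refine ⟨Finset.mem_univ _, ?_⟩
        rw [h3, h7]
    · rintro (⟨-, h2⟩ | ⟨-, h2⟩)
      · refine ⟨⟨i, by rw [h2, Pi.single_eq_same]; norm_num⟩, ?_⟩
        rintro ⟨j, hj, h3⟩
        rw [h2, Pi.single_eq_of_ne hj] at h3
        omega
      · refine ⟨⟨i, by rw [h2, Pi.single_eq_same]; norm_num⟩, ?_⟩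
        rintro ⟨j, hj, h3⟩
        rw [h2, Pi.single_eq_of_ne hj] at h3
        omega
  have hdis : Disjoint (Finset.univ.filter fun k => wt k = al i) (Finset.univ.filter fun k => wt k = al i + al i) := by
    rw [Finset.disjoint_left]
    intro k h2 h3
    rw [Finset.mem_filter] at h2 h3
    have h4 : al i = al i + al i := h2.2.symm.trans h3.2
    exact (s.hS.root i).1 (left_eq_add.1 h4)
  rw [h1, Finset.sum_union hdis]
  have g1 : ∑ k ∈ Finset.univ.filter (fun k => wt k = al i), wt k (τ (al i)) = (finrank ℝ (rsp A (al i)) : ℝ) * al i (τ (al i)) := by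
    rw [hE.finrank_rsp, Finset.sum_congr rfl (g := fun _ => al i (τ (al i))), Finset.sum_const, nsmul_eq_mul]
    intro k hk
    rw [(Finset.mem_filter.1 hk).2]
  have g2 : ∑ k ∈ Finset.univ.filter (fun k => wt k = al i + al i), wt k (τ (al i)) =
      (finrank ℝ (rsp A (al i + al i)) : ℝ) * (2 * al i (τ (al i))) := by
    rw [hE.finrank_rsp, Finset.sum_congr rfl (g := fun _ => 2 * al i (τ (al i))), Finset.sum_const, nsmul_eq_mul]
    intro k hk
    rw [(Finset.mem_filter.1 hk).2, LinearMap.add_apply]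
    ring
  rw [g1, g2]
  ring

/-- The coefficients of `2 rho`. -/
noncomputable def nc (m : κ → ι → ℤ) (j : ι) : ℤ := ∑ k ∈ Px m, m k j

theorem sum_Px (hm : Cf al wt m) (c : A) : ∑ k ∈ Px m, wt k c = ∑ j, (nc m j : ℝ) * al j c := by
  have h1 : ∀ k ∈ Px m, wt k c = ∑ j, (m k j : ℝ) * al j c := by
    intro k _
    conv_lhs => rw [hm.eq k]
    rw [LinearMap.sum_apply]
    refine Finset.sum_congr rfl fun j _ => ?_
    rw [LinearMap.smul_apply, smul_eq_mul]
  rw [Finset.sum_congr rfl h1, Finset.sum_comm]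
  refine Finset.sum_congr rfl fun j _ => ?_
  rw [nc, Int.cast_sum, Finset.sum_mul]

/-- The functional `2 rho` on the closed chamber. -/
theorem tpos_chamber (hE : Eb A e wt) (hm : Cf al wt m) {c : A} (hc : ∀ i, 0 ≤ al i c) : tpos A c = ∑ j, (nc m j : ℝ) * al j c := by
  classical
  rw [hE.tpos_eq, ← sum_Px hm, ← Finset.sum_subset (Finset.subset_univ (Px m))]
  · refine Finset.sum_congr rfl fun k hk => ?_
    obtain ⟨j, hj⟩ := mem_Px.1 hk
    refine max_eq_left ?_
    conv_rhs => rw [hm.eq k]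
    rw [LinearMap.sum_apply]
    refine Finset.sum_nonneg fun i _ => ?_
    rw [LinearMap.smul_apply, smul_eq_mul]
    have h1 : (0 : ℝ) ≤ m k i := by exact_mod_cast hm.nonneg hj i
    exact mul_nonneg h1 (hc i)
  · intro k _ hk
    refine max_eq_right ?_
    have h1 : ∀ j, m k j ≤ 0 := by
      intro j
      by_contra h2
      exact hk (mem_Px.2 ⟨j, by omega⟩)
    conv_lhs => rw [hm.eq k]
    rw [LinearMap.sum_apply]
    refine Finset.sum_nonpos fun i _ => ?_
    rw [LinearMap.smul_apply, smul_eq_mul]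
    have h2 : (m k i : ℝ) ≤ 0 := by exact_mod_cast h1 i
    exact mul_nonpos_of_nonpos_of_nonneg h2 (hc i)

theorem nc_pos (s : SD θ b A τ al) (hE : Eb A e wt) (hm : Cf al wt m) (j : ι) : 0 < nc m j := by
  classical
  obtain ⟨k, hk⟩ := hE.exists_root (s.hS.root j)
  have h1 : m k = Pi.single j 1 := by
    rw [← Cf.eq_single s.li hm, hk]
    push_cast
    exact (one_smul _ _).symm
  refine Finset.sum_pos' (fun l hl => ?_) ⟨k, mem_Px.2 ⟨j, ?_⟩, ?_⟩
  · obtain ⟨i, hi⟩ := mem_Px.1 hl
    exact hm.nonneg hi j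
  · rw [h1, Pi.single_eq_same]
    norm_num
  · rw [h1, Pi.single_eq_same]
    norm_num

/-- **The relation between the coefficients of `2 rho` and the Cartan integers.** -/
theorem nc_eq (s : SD θ b A τ al) (hE : Eb A e wt) (hm : Cf al wt m) (i : ι) : ∑ j, (nc m j : ℝ) * al j (τ (al i)) =
    ((finrank ℝ (rsp A (al i)) : ℝ) + 2 * finrank ℝ (rsp A (al i + al i))) * al i (τ (al i)) := by
  rw [← sum_Px hm, rho_eq s hE hm i]

end Pool.Agent.Helper68.FQ
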